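import Pool.Agent.H31.RB.Emp

set_option autoImplicit false

open scoped ENNReal Topology
open MeasureTheory Filter

namespace Pool.Agent.H31.RB

open Pool.Agent.H3.RB

theorem measurableSet_DC {d : ℕ} (x : Sph d) (r : ℝ) : MeasurableSet (DC x r) := by
  have h : DC x r = {p : Sph d | ‖(p : EE d) - x‖ < r} ∪ {p : Sph d | ‖(p : EE d) + x‖ < r} := by
    ext p; simp [DC]
  rw [h]
  apply MeasurableSet.union
  · exact (isOpen_lt (by fun_prop) (by fun_prop)).measurableSet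
  · exact (isOpen_lt (by fun_prop) (by fun_prop)).measurableSet

theorem inner_of_DC {d : ℕ} (x p : Sph d) (r ρ : ℝ) (hr : 0 < r) (hρ : r ≤ ρ)
    (h : p ∈ DC x r) : 1 - ρ ^ 2 / 2 ≤ |inner ℝ (x : EE d) (p : EE d)| := by
  have hx : ‖(x : EE d)‖ = 1 := by simp
  have hp : ‖(p : EE d)‖ = 1 := by simp
  have hrr : r ^ 2 ≤ ρ ^ 2 := pow_le_pow_left₀ hr.le hρ 2
  rcases h with h | h
  · have h1 := norm_sub_sq_real (p : EE d) (x : EE d)
    rw [hx, hp, real_inner_comm] at h1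
    have h2 : ‖(p : EE d) - x‖ ^ 2 ≤ r ^ 2 := pow_le_pow_left₀ (norm_nonneg _) h.le 2
    have h3 := le_abs_self (inner ℝ (x : EE d) (p : EE d))
    linarith
  · have h1 := norm_add_sq_real (p : EE d) (x : EE d)
    rw [hx, hp, real_inner_comm] at h1
    have h2 : ‖(p : EE d) + x‖ ^ 2 ≤ r ^ 2 := pow_le_pow_left₀ (norm_nonneg _) h.le 2
    have h3 := neg_abs_le (inner ℝ (x : EE d) (p : EE d))
    linarith

theorem A_step (hPRB : S_PRB) (hVOL : S_VOL) (hDIS : S_DIS) (hADT : S_ADT) (hEMP : S_EMP)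
    (d : ℕ) (b0 ρ w κ : ℝ) (m : ℕ) (x : Fin m → Sph d) (r : Fin m → ℝ) (H : Set (Sph d))
    (hb0 : 0 < b0) (hρ : 0 < ρ) (hρ1 : ρ ≤ 1 / 100) (hw : 0 < w) (hκ : κ = 1 - ρ ^ 2 / 2)
    (hH : Holes d b0 ρ m x r H)
    (hHm : ∀ i, unif d (H ∩ DC (x i) (r i)) ≤ ENNReal.ofReal (w * b0 ^ d))
    (lam : ℝ) (hlam : 10 ≤ lam) (N : Fin m → ℕ) (y : ∀ i, Fin (N i) → EE d)
    (hy : ∀ i j, inner ℝ (x i : EE d) (y i j) = 0 ∧ ‖y i j‖ ≤ r i / 4 ∧
      ∀ k, j ≠ k → 3 * r i / lam ≤ ‖y i j - y i k‖)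
    (n : ℕ) (V L : ℝ) (hV : 1 / (κ ^ (d + 1) * lam ^ d) * (w * b0 ^ d) ≤ V) (hV1 : V < 1)
    (hL : 0 < L) (hN : ∀ i, L ≤ N i) :
    law d n {p | ¬ ColX (b0 / ((1 + 20 * ρ) * lam)) p} ≤
      m * ENNReal.ofReal (1 / (L * (1 - V) ^ n)) := by
  classical
  have hprob : IsProbabilityMeasure (unif d) := hPRB d
  have hκ0 : 0 < κ := by rw [hκ]; nlinarith
  have hκ1 : κ ≤ 1 := by rw [hκ]; nlinarith
  have hr : ∀ i, 0 < r i := fun i => lt_of_lt_of_le hb0 (hH.rad i).1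
  let T : Fin m → Set (Sph d) := fun i => H ∩ DC (x i) (r i)
  have hTm : ∀ i, MeasurableSet (T i) := fun i => hH.meas.inter (measurableSet_DC _ _)
  have hTin : ∀ i, ∀ p ∈ T i, κ ≤ |inner ℝ (x i : EE d) (p : EE d)| := by
    intro i p hp
    rw [hκ]
    exact inner_of_DC (x i) p (r i) ρ (hr i) (hH.rad i).2 hp.2
  let K : ∀ i, Fin (N i) → Set (Sph d) := fun i j => KK (x i) lam (y i j) (T i)
  have hvol : ∀ i j, MeasurableSet (K i j) ∧
      unif d (K i j) ≤ ENNReal.ofReal (1 / (κ ^ (d + 1) * lam ^ d)) * unif d (T i) := fun i j =>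
    hVOL d (x i) lam κ (y i j) (T i) (by linarith) hκ0 hκ1 (hy i j).1 (hTm i) (hTin i)
  have hV0 : 0 ≤ V := le_trans (by positivity) hV
  have hKV : ∀ i j, unif d (K i j) ≤ ENNReal.ofReal V := by
    intro i j
    refine (hvol i j).2.trans ?_
    calc ENNReal.ofReal (1 / (κ ^ (d + 1) * lam ^ d)) * unif d (T i) ≤
          ENNReal.ofReal (1 / (κ ^ (d + 1) * lam ^ d)) * ENNReal.ofReal (w * b0 ^ d) :=
          mul_le_mul_right (hHm i) _
      _ = ENNReal.ofReal (1 / (κ ^ (d + 1) * lam ^ d) * (w * b0 ^ d)) :=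
          (ENNReal.ofReal_mul (by positivity)).symm
      _ ≤ ENNReal.ofReal V := ENNReal.ofReal_le_ofReal hV
  have hKd : ∀ i j k, j ≠ k → Disjoint (K i j) (K i k) := by
    intro i j k hjk
    exact hDIS d (x i) lam (r i) (y i j) (y i k) (T i) (by linarith) (hr i)
      (by linarith [(hH.rad i).2]) (hy i j).1 (hy i k).1 Set.inter_subset_right
      ((hy i j).2.2 k hjk)
  have hsub : {p : Fin n → Sph d | ¬ ColX (b0 / ((1 + 20 * ρ) * lam)) p} ⊆
      ⋃ i ∈ (Finset.univ : Finset (Fin m)), {p | ∀ j, ∃ i', p i' ∈ K i j} := by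
    intro p hp
    by_contra hcon
    simp only [Set.mem_iUnion, Finset.mem_univ, exists_prop, true_and, Set.mem_ofPred_eq,
      not_exists, not_forall] at hcon
    choose J hJ using hcon
    apply hp
    obtain ⟨c, hc⟩ := hADT d b0 ρ m x r H hb0 hρ hρ1 hH lam (fun i => y i (J i)) hlam
      (fun i => (hy i (J i)).1) (fun i => (hy i (J i)).2.1)
    have hmem : ∀ i', p i' ∈ (⋃ i, KK (x i) lam (y i (J i)) (H ∩ DC (x i) (r i)))ᶜ := by
      intro i' hi'
      rw [Set.mem_iUnion] at hi'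
      obtain ⟨i, hi⟩ := hi'
      exact hJ i i' hi
    exact ⟨fun i' => c (p i'), fun i j hij => hc (p i) (hmem i) (p j) (hmem j) hij⟩
  have hone : ∀ i, law d n {p | ∀ j, ∃ i', p i' ∈ K i j} ≤
      ENNReal.ofReal (1 / (L * (1 - V) ^ n)) := by
    intro i
    have hNi : 0 < N i := by
      have : (0 : ℝ) < N i := lt_of_lt_of_le hL (hN i)
      exact_mod_cast this
    refine (hEMP (Sph d) _ (unif d) hprob n (N i) (K i) V hNi hV0 hV1 (fun j => (hvol i j).1)
      (hKd i) (hKV i)).trans ?_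
    apply ENNReal.ofReal_le_ofReal
    have h2 : (0 : ℝ) < (1 - V) ^ n := pow_pos (by linarith) n
    apply one_div_le_one_div_of_le (by positivity)
    exact mul_le_mul_of_nonneg_right (hN i) h2.le
  calc law d n _ ≤ law d n (⋃ i ∈ (Finset.univ : Finset (Fin m)), {p | ∀ j, ∃ i', p i' ∈ K i j}) :=
        measure_mono hsub
    _ ≤ ∑ i : Fin m, law d n {p | ∀ j, ∃ i', p i' ∈ K i j} := measure_biUnion_finset_le _ _
    _ ≤ ∑ _i : Fin m, ENNReal.ofReal (1 / (L * (1 - V) ^ n)) :=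
        Finset.sum_le_sum fun i _ => hone i
    _ = m * ENNReal.ofReal (1 / (L * (1 - V) ^ n)) := by simp

theorem bn_pow (d : ℕ) (hd : 1 ≤ d) (c : ℝ) (n : ℕ) :
    (bn d c n) ^ d = c ^ d * (Real.log n / n) := by
  unfold bn
  rw [mul_pow, one_div, Real.rpow_inv_natCast_pow (by positivity) (by omega)]

theorem tendsto_logdiv : Tendsto (fun n : ℕ => Real.log n / n) atTop (𝓝 0) := by
  have h := Real.isLittleO_log_id_atTop.tendsto_div_nhds_zero
  exact h.comp tendsto_natCast_atTop_atTop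

theorem tendsto_bn (d : ℕ) (hd : 1 ≤ d) (c : ℝ) : Tendsto (bn d c) atTop (𝓝 0) := by
  have hp : (0 : ℝ) < (1 : ℝ) / d := by positivity
  have h1 := (tendsto_logdiv.rpow_const (Or.inr hp.le)).const_mul c
  rw [Real.zero_rpow hp.ne', mul_zero] at h1
  exact h1

theorem bn_pos (d : ℕ) (c : ℝ) (hc : 0 < c) (n : ℕ) (hn : 2 ≤ n) : 0 < bn d c n := by
  unfold bn
  have h1 : 0 < Real.log n := Real.log_pos (by exact_mod_cast hn)
  have h2 : (0 : ℝ) < n := by positivity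
  positivity

theorem t_A : S_A := by
  intro hPRB hVOL hDIS hGRD hADT hEMP hASA d w c hd hw hc hwc hstr
  obtain ⟨κ', lam₀, hκ', hlam₀, hgrd⟩ := hGRD d hd
  -- choice of ρ
  obtain ⟨ρ, hρg, hρ, hρ1⟩ : ∃ ρ : ℝ, (1 + 20 * ρ) ^ d * w * c ^ d / (1 - ρ ^ 2 / 2) ^ (d + 1) < 1 ∧
      0 < ρ ∧ ρ < 1 / 100 := by
    have hcont : ContinuousAt (fun ρ : ℝ => (1 + 20 * ρ) ^ d * w * c ^ d /
        (1 - ρ ^ 2 / 2) ^ (d + 1)) 0 := by
      apply ContinuousAt.div (by fun_prop) (by fun_prop)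
      norm_num
    have h1 : ∀ᶠ ρ in 𝓝 (0 : ℝ), (1 + 20 * ρ) ^ d * w * c ^ d /
        (1 - ρ ^ 2 / 2) ^ (d + 1) < 1 := by
      apply hcont.eventually_lt continuousAt_const
      norm_num
      exact hwc
    have h2 : ∀ᶠ ρ in 𝓝[>] (0 : ℝ), (1 + 20 * ρ) ^ d * w * c ^ d /
        (1 - ρ ^ 2 / 2) ^ (d + 1) < 1 ∧ 0 < ρ ∧ ρ < 1 / 100 := by
      refine (h1.filter_mono nhdsWithin_le_nhds).and ?_
      exact Ioo_mem_nhdsGT (by norm_num)
    exact h2.exists
  obtain ⟨b0, v, hb0, hb0ρ, hvw, m, x, r, H, hH, hHm⟩ := hstr ρ hρ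
  set κ : ℝ := 1 - ρ ^ 2 / 2 with hκ
  have hκ0 : 0 < κ := by rw [hκ]; nlinarith
  set γ : ℝ := (1 + 20 * ρ) ^ d * w * c ^ d / κ ^ (d + 1) with hγ
  have hγ0 : 0 < γ := by positivity
  have hHm' : ∀ i, unif d (H ∩ DC (x i) (r i)) ≤ ENNReal.ofReal (w * b0 ^ d) := by
    intro i
    refine (hHm i).trans (ENNReal.ofReal_le_ofReal ?_)
    exact mul_le_mul_of_nonneg_right hvw.le (by positivity)
  set k : ℝ := κ' * b0 ^ d / ((1 + 20 * ρ) ^ d * c ^ d) with hk
  have hk0 : 0 < k := by positivity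
  -- eventually
  have hev1 : ∀ᶠ n : ℕ in atTop, bn d c n < b0 / ((1 + 20 * ρ) * max 10 lam₀) :=
    (tendsto_bn d hd c).eventually_lt_const (by positivity)
  have hev2 : ∀ᶠ n : ℕ in atTop, γ * (Real.log n / n) < 1 := by
    have := tendsto_logdiv.const_mul γ
    rw [mul_zero] at this
    exact this.eventually_lt_const (by norm_num)
  have hbound : ∀ᶠ n : ℕ in atTop, law d n {p | ¬ ColX (bn d c n) p} ≤
      m * ENNReal.ofReal (1 / (k * ((n : ℝ) / Real.log n) *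
        (1 - γ * (Real.log n / n)) ^ n)) := by
    filter_upwards [hev1, hev2, eventually_ge_atTop 2] with n h1 h2 hn
    have hb := bn_pos d c hc n hn
    have hlog : 0 < Real.log n := Real.log_pos (by exact_mod_cast hn)
    have hn0 : (0 : ℝ) < n := by positivity
    set lam : ℝ := b0 / ((1 + 20 * ρ) * bn d c n) with hlam
    have hlamge : max 10 lam₀ ≤ lam := by
      rw [hlam, le_div_iff₀ (by positivity)]
      rw [lt_div_iff₀ (by positivity)] at h1
      nlinarith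
    have hlam10 : 10 ≤ lam := (le_max_left _ _).trans hlamge
    have hlaml : lam₀ ≤ lam := (le_max_right _ _).trans hlamge
    have hlam0 : 0 < lam := by linarith
    have hlampow : lam ^ d = b0 ^ d / ((1 + 20 * ρ) ^ d * (c ^ d * (Real.log n / n))) := by
      rw [hlam, div_pow, mul_pow, bn_pow d hd c n]
    have hr : ∀ i, 0 < r i := fun i => lt_of_lt_of_le hb0 (hH.rad i).1
    choose N y hN hy using fun i => hgrd (x i) (r i) lam (hr i) hlaml
    have hscale : b0 / ((1 + 20 * ρ) * lam) = bn d c n := by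
      rw [hlam]
      field_simp
    rw [← hscale]
    refine A_step hPRB hVOL hDIS hADT hEMP d b0 ρ w κ m x r H hb0 hρ hρ1.le hw hκ hH hHm' lam
      hlam10 N y hy n (γ * (Real.log n / n)) (k * (n / Real.log n)) ?_ h2 (by positivity) ?_
    · rw [hlampow, hγ]
      apply le_of_eq
      field_simp
    · intro i
      refine le_trans (le_of_eq ?_) (hN i)
      rw [hlampow, hk]
      field_simp
  have hlim : Tendsto (fun n : ℕ => (m : ℝ≥0∞) * ENNReal.ofReal (1 / (k * ((n : ℝ) / Real.log n) *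
        (1 - γ * (Real.log n / n)) ^ n))) atTop (𝓝 0) := by
    have h1 := (hASA γ k hγ0 hρg hk0).inv_tendsto_atTop
    have h2 : Tendsto (fun n : ℕ => ENNReal.ofReal (1 / (k * ((n : ℝ) / Real.log n) *
        (1 - γ * (Real.log n / n)) ^ n))) atTop (𝓝 0) := by
      have h3 := ENNReal.tendsto_ofReal h1
      rw [ENNReal.ofReal_zero] at h3
      refine h3.congr fun n => ?_
      simp only [Pi.inv_apply, one_div]
    have h4 := ENNReal.Tendsto.const_mul (a := (m : ℝ≥0∞)) h2 (Or.inr (ENNReal.natCast_ne_top m))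
    rwa [mul_zero] at h4
  exact tendsto_of_tendsto_of_tendsto_of_le_of_le' tendsto_const_nhds hlim
    (Eventually.of_forall fun _ => zero_le) hbound

end Pool.Agent.H31.RB
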