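import Pool.Agent.H3.RB.Stm

set_option autoImplicit false

open scoped ENNReal Topology
open MeasureTheory Filter

namespace Pool.Agent.H31.RB

open Pool.Agent.H3.RB

/-- the measure of the event that all points avoid the set `L`. -/
theorem pi_avoid {α : Type} [MeasurableSpace α] (μ : Measure α) [IsProbabilityMeasure μ] (n : ℕ)
    (L : Set α) :
    (Measure.pi fun _ : Fin n => μ).real {x | ∀ i, x i ∉ L} = (μ.real Lᶜ) ^ n := by
  have h : {x : Fin n → α | ∀ i, x i ∉ L} = Set.pi Set.univ fun _ => Lᶜ := by
    ext x; simp [Set.mem_pi]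
  rw [h, measureReal_def, Measure.pi_pi]
  simp [measureReal_def]

theorem t_EMP : S_EMP := by
  intro α _ μ _ n N K V hN hV hV1 hK hdis hle
  classical
  set P : Measure (Fin n → α) := Measure.pi fun _ : Fin n => μ with hP
  have : IsProbabilityMeasure P := by rw [hP]; infer_instance
  let m : Fin N → ℝ := fun j => μ.real (K j)
  have hm0 : ∀ j, 0 ≤ m j := fun j => measureReal_nonneg
  have hmV : ∀ j, m j ≤ V := fun j => by
    have := ENNReal.toReal_mono ENNReal.ofReal_ne_top (hle j)
    rwa [ENNReal.toReal_ofReal hV] at this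
  let A : Fin N → Set (Fin n → α) := fun j => {x | ∀ i, x i ∉ K j}
  have hAm : ∀ j, MeasurableSet (A j) := by
    intro j
    have h : A j = Set.pi Set.univ fun _ => (K j)ᶜ := by
      ext x; simp [A, Set.mem_pi]
    rw [h]
    exact MeasurableSet.univ_pi fun _ => (hK j).compl
  let a : Fin N → ℝ := fun j => (1 - m j) ^ n
  have hPA : ∀ j, P.real (A j) = a j := by
    intro j
    have h1 := pi_avoid μ n (K j)
    rw [probReal_compl_eq_one_sub (hK j)] at h1
    exact h1
  have hPAA : ∀ j k, j ≠ k → P.real (A j ∩ A k) ≤ a j * a k := by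
    intro j k hjk
    have h0 : A j ∩ A k = {x | ∀ i, x i ∉ K j ∪ K k} := by
      ext x
      simp only [A, Set.mem_inter_iff, Set.mem_ofPred_eq, Set.mem_union, not_or]
      exact ⟨fun h i => ⟨h.1 i, h.2 i⟩, fun h => ⟨fun i => (h i).1, fun i => (h i).2⟩⟩
    have h1 := pi_avoid μ n (K j ∪ K k)
    rw [probReal_compl_eq_one_sub ((hK j).union (hK k)),
      measureReal_union (hdis j k hjk) (hK k)] at h1
    rw [h0]
    have h2 : P.real {x | ∀ i, x i ∉ K j ∪ K k} = (1 - (m j + m k)) ^ n := h1
    rw [h2, ← mul_pow]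
    have h3 : m j + m k ≤ 1 := by
      have : μ.real (K j ∪ K k) ≤ 1 := measureReal_le_one
      rw [measureReal_union (hdis j k hjk) (hK k)] at this
      exact this
    apply pow_le_pow_left₀ (by linarith)
    nlinarith [mul_nonneg (hm0 j) (hm0 k)]
  let E : ℝ := ∑ j, a j
  have haV : ∀ j, (1 - V) ^ n ≤ a j := fun j =>
    pow_le_pow_left₀ (by linarith) (by linarith [hmV j]) n
  have hEN : N * (1 - V) ^ n ≤ E := by
    have : ∑ _j : Fin N, (1 - V) ^ n ≤ E := Finset.sum_le_sum fun j _ => haV j
    simpa using this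
  have hpos : 0 < (N : ℝ) * (1 - V) ^ n := by
    have : (0 : ℝ) < N := by exact_mod_cast hN
    have h2 : (0 : ℝ) < (1 - V) ^ n := pow_pos (by linarith) n
    positivity
  have hE : 0 < E := lt_of_lt_of_le hpos hEN
  -- indicator functions
  let f : Fin N → (Fin n → α) → ℝ := fun j => (A j).indicator fun _ => (1 : ℝ)
  have hfi : ∀ j, Integrable (f j) P := fun j =>
    (integrable_const (1 : ℝ)).indicator (hAm j)
  have hff : ∀ j k x, f j x * f k x = (A j ∩ A k).indicator (fun _ => (1 : ℝ)) x := by
    intro j k x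
    simp only [f, Set.indicator_apply, Set.mem_inter_iff]
    by_cases h1 : x ∈ A j <;> by_cases h2 : x ∈ A k <;> simp [h1, h2]
  have hffi : ∀ j k, Integrable (fun x => f j x * f k x) P := by
    intro j k
    have : (fun x => f j x * f k x) = (A j ∩ A k).indicator (fun _ => (1 : ℝ)) := by
      funext x; exact hff j k x
    rw [this]
    exact (integrable_const (1 : ℝ)).indicator ((hAm j).inter (hAm k))
  have hfint : ∀ j, ∫ x, f j x ∂P = a j := by
    intro j
    rw [← hPA j]
    exact integral_indicator_one (hAm j)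
  have hffint : ∀ j k, ∫ x, f j x * f k x ∂P = P.real (A j ∩ A k) := by
    intro j k
    have : (fun x => f j x * f k x) = (A j ∩ A k).indicator (fun _ => (1 : ℝ)) := by
      funext x; exact hff j k x
    rw [this]
    exact integral_indicator_one ((hAm j).inter (hAm k))
  -- second moment
  have hsec : ∑ j, ∑ k, P.real (A j ∩ A k) ≤ E + E ^ 2 := by
    have h1 : ∀ j k, P.real (A j ∩ A k) ≤ (if j = k then a j else 0) + a j * a k := by
      intro j k
      have haj : 0 ≤ a j := le_trans (pow_nonneg (by linarith) n) (haV j)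
      have hak : 0 ≤ a k := le_trans (pow_nonneg (by linarith) n) (haV k)
      by_cases h : j = k
      · subst h
        rw [if_pos rfl, Set.inter_self, hPA]
        nlinarith [mul_nonneg haj haj]
      · rw [if_neg h, zero_add]
        exact hPAA j k h
    calc ∑ j, ∑ k, P.real (A j ∩ A k) ≤ ∑ j, ∑ k, ((if j = k then a j else 0) + a j * a k) :=
          Finset.sum_le_sum fun j _ => Finset.sum_le_sum fun k _ => h1 j k
      _ = E + E ^ 2 := by
          simp only [Finset.sum_add_distrib, Finset.sum_ite_eq, Finset.mem_univ, if_true]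
          rw [sq, Finset.sum_mul_sum]
  -- the main inequality
  have hbad : MeasurableSet {x : Fin n → α | ∀ j, ∃ i, x i ∈ K j} := by
    have h : {x : Fin n → α | ∀ j, ∃ i, x i ∈ K j} = ⋂ j, (A j)ᶜ := by
      ext x
      simp [A]
    rw [h]
    exact MeasurableSet.iInter fun j => (hAm j).compl
  have hpt : ∀ x, ({x : Fin n → α | ∀ j, ∃ i, x i ∈ K j}).indicator (fun _ => (1 : ℝ)) x ≤
      1 - 2 / E * ∑ j, f j x + 1 / E ^ 2 * ∑ j, ∑ k, f j x * f k x := by
    intro x
    have hsq : 1 - 2 / E * ∑ j, f j x + 1 / E ^ 2 * ∑ j, ∑ k, f j x * f k x =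
        (1 - (∑ j, f j x) / E) ^ 2 := by
      rw [← Finset.sum_mul_sum]
      field_simp
      ring
    rw [hsq]
    by_cases h : x ∈ {x : Fin n → α | ∀ j, ∃ i, x i ∈ K j}
    · have h0 : ∀ j, f j x = 0 := by
        intro j
        have : x ∉ A j := by
          intro hx
          obtain ⟨i, hi⟩ := h j
          exact hx i hi
        simp [f, this]
      simp [Set.indicator_of_mem h, h0]
    · rw [Set.indicator_of_notMem h]
      positivity
  have hint : Integrable (fun x => 1 - 2 / E * ∑ j, f j x +
      1 / E ^ 2 * ∑ j, ∑ k, f j x * f k x) P := by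
    apply Integrable.add
    · apply Integrable.sub (integrable_const _)
      exact (integrable_finsetSum _ fun j _ => hfi j).const_mul _
    · exact (integrable_finsetSum _ fun j _ =>
        integrable_finsetSum _ fun k _ => hffi j k).const_mul _
  have hmain : P.real {x : Fin n → α | ∀ j, ∃ i, x i ∈ K j} ≤ 1 / E := by
    have h1 : ∫ x, ({x : Fin n → α | ∀ j, ∃ i, x i ∈ K j}).indicator (fun _ => (1 : ℝ)) x ∂P ≤
        ∫ x, (1 - 2 / E * ∑ j, f j x + 1 / E ^ 2 * ∑ j, ∑ k, f j x * f k x) ∂P := by
      apply integral_mono _ hint hpt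
      exact (integrable_const (1 : ℝ)).indicator hbad
    have h2 : ∫ x, ({x : Fin n → α | ∀ j, ∃ i, x i ∈ K j}).indicator (fun _ => (1 : ℝ)) x ∂P =
        P.real {x : Fin n → α | ∀ j, ∃ i, x i ∈ K j} := integral_indicator_one hbad
    have h3 : ∫ x, (1 - 2 / E * ∑ j, f j x + 1 / E ^ 2 * ∑ j, ∑ k, f j x * f k x) ∂P =
        1 - 2 / E * E + 1 / E ^ 2 * ∑ j, ∑ k, P.real (A j ∩ A k) := by
      rw [integral_add, integral_sub, integral_const_mul, integral_const_mul,
        integral_finsetSum, integral_finsetSum]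
      · simp only [integral_const, probReal_univ, smul_eq_mul, mul_one]
        congr 2
        · rw [Finset.sum_congr rfl fun j _ => hfint j]
        · apply Finset.sum_congr rfl
          intro j _
          rw [integral_finsetSum _ fun k _ => hffi j k]
          exact Finset.sum_congr rfl fun k _ => hffint j k
      · exact fun j _ => integrable_finsetSum _ fun k _ => hffi j k
      · exact fun j _ => hfi j
      · exact integrable_const _
      · exact (integrable_finsetSum _ fun j _ => hfi j).const_mul _
      · apply Integrable.sub (integrable_const _)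
        exact (integrable_finsetSum _ fun j _ => hfi j).const_mul _
      · exact (integrable_finsetSum _ fun j _ =>
          integrable_finsetSum _ fun k _ => hffi j k).const_mul _
    rw [h2, h3] at h1
    have h4 : 1 / E ^ 2 * ∑ j, ∑ k, P.real (A j ∩ A k) ≤ 1 / E ^ 2 * (E + E ^ 2) :=
      mul_le_mul_of_nonneg_left hsec (by positivity)
    have h5 : 1 - 2 / E * E + 1 / E ^ 2 * (E + E ^ 2) = 1 / E := by
      field_simp
      ring
    linarith
  have hfin : P.real {x : Fin n → α | ∀ j, ∃ i, x i ∈ K j} ≤ 1 / (N * (1 - V) ^ n) :=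
    hmain.trans (one_div_le_one_div_of_le hpos hEN)
  rw [← ENNReal.ofReal_toReal (measure_ne_top P _)]
  exact ENNReal.ofReal_le_ofReal hfin

end Pool.Agent.H31.RB
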