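import Pool.Agent.H31.RB.Emp

set_option autoImplicit false

open scoped ENNReal Topology
open MeasureTheory Filter

namespace Pool.Agent.H31.RB

open Pool.Agent.H3.RB

theorem t_WIN : S_WIN := by
  intro d κ C s m z Q hprob hc n W R τ hτ hW
  classical
  have hprob' : IsProbabilityMeasure (unif d) := hprob
  have hPp : IsProbabilityMeasure (law d n) := by unfold law; infer_instance
  let F : Fin m → Finset (Fin m) := fun j => Finset.univ.filter fun k => Dp (z j) (z k) ≤ R
  let U : Finset (Fin m) → Set (Sph d) := fun T => ⋃ k ∈ T, Q k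
  have hUm : ∀ T, MeasurableSet (U T) := fun T =>
    Finset.measurableSet_biUnion T fun k _ => hc.meas k
  let G : Finset (Fin m) → Set (Fin n → Sph d) := fun T =>
    {x | (∀ i, x i ∉ U T) ∧ ENNReal.ofReal τ < unif d (U T)}
  have hG : ∀ T, law d n (G T) ≤ ENNReal.ofReal (Real.exp (-(n * τ))) := by
    intro T
    by_cases h : ENNReal.ofReal τ < unif d (U T)
    · have h1 : law d n (G T) ≤ law d n {x | ∀ i, x i ∉ U T} := measure_mono fun x hx => hx.1
      refine h1.trans ?_
      have h2 := pi_avoid (unif d) n (U T)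
      rw [probReal_compl_eq_one_sub (hUm T)] at h2
      rw [← ENNReal.ofReal_toReal (measure_ne_top (law d n) _)]
      apply ENNReal.ofReal_le_ofReal
      have h3 : (law d n {x | ∀ i, x i ∉ U T}).toReal = (1 - (unif d).real (U T)) ^ n := h2
      rw [h3]
      have h4 : τ ≤ (unif d).real (U T) := by
        have := ENNReal.toReal_mono (measure_ne_top (unif d) (U T)) h.le
        rwa [ENNReal.toReal_ofReal hτ] at this
      have h5 : (unif d).real (U T) ≤ 1 := measureReal_le_one
      calc (1 - (unif d).real (U T)) ^ n ≤ (Real.exp (-τ)) ^ n := by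
            apply pow_le_pow_left₀ (by linarith)
            have := Real.add_one_le_exp (-τ)
            linarith
        _ = Real.exp (-(n * τ)) := by
            rw [← Real.exp_nat_mul]
            congr 1
            ring
    · have : G T = ∅ := by
        ext x
        simp only [G, Set.mem_ofPred_eq, Set.mem_empty_iff_false, iff_false]
        exact fun hx => h hx.2
      rw [this]
      simp
  have hsub : {x : Fin n → Sph d | ∃ (j : Fin m) (T : Finset (Fin m)),
      (∀ k ∈ T, Dp (z j) (z k) ≤ R) ∧ (∀ k ∈ T, ∀ i, x i ∉ Q k) ∧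
        ENNReal.ofReal τ < unif d (⋃ k ∈ T, Q k)} ⊆
      ⋃ j ∈ (Finset.univ : Finset (Fin m)), ⋃ T ∈ (F j).powerset, G T := by
    rintro x ⟨j, T, h1, h2, h3⟩
    simp only [Set.mem_iUnion]
    refine ⟨j, Finset.mem_univ j, T, ?_, ?_, h3⟩
    · rw [Finset.mem_powerset]
      intro k hk
      simp only [F, Finset.mem_filter, Finset.mem_univ, true_and]
      exact h1 k hk
    · intro i hi
      simp only [U, Set.mem_iUnion] at hi
      obtain ⟨k, hk, hik⟩ := hi
      exact h2 k hk i hik
  calc law d n _ ≤ law d n (⋃ j ∈ (Finset.univ : Finset (Fin m)), ⋃ T ∈ (F j).powerset, G T) :=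
        measure_mono hsub
    _ ≤ ∑ j : Fin m, law d n (⋃ T ∈ (F j).powerset, G T) := measure_biUnion_finset_le _ _
    _ ≤ ∑ j : Fin m, ∑ T ∈ (F j).powerset, law d n (G T) :=
        Finset.sum_le_sum fun j _ => measure_biUnion_finset_le _ _
    _ ≤ ∑ j : Fin m, ∑ T ∈ (F j).powerset, ENNReal.ofReal (Real.exp (-(n * τ))) :=
        Finset.sum_le_sum fun j _ => Finset.sum_le_sum fun T _ => hG T
    _ = ENNReal.ofReal (∑ j : Fin m, ∑ _T ∈ (F j).powerset, Real.exp (-(n * τ))) := by
        rw [ENNReal.ofReal_sum_of_nonneg fun j _ => Finset.sum_nonneg fun T _ => (Real.exp_pos _).le]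
        apply Finset.sum_congr rfl
        intro j _
        rw [ENNReal.ofReal_sum_of_nonneg fun T _ => (Real.exp_pos _).le]
    _ ≤ ENNReal.ofReal (m * 2 ^ W * Real.exp (-(n * τ))) := by
        apply ENNReal.ofReal_le_ofReal
        have h1 : ∀ j : Fin m, ∑ _T ∈ (F j).powerset, Real.exp (-(n * τ)) ≤
            2 ^ W * Real.exp (-(n * τ)) := by
          intro j
          rw [Finset.sum_const, Finset.card_powerset, nsmul_eq_mul]
          push_cast
          apply mul_le_mul_of_nonneg_right _ (Real.exp_pos _).le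
          exact pow_le_pow_right₀ (by norm_num) (hW j)
        calc ∑ j : Fin m, ∑ _T ∈ (F j).powerset, Real.exp (-(n * τ)) ≤
              ∑ _j : Fin m, 2 ^ W * Real.exp (-(n * τ)) := Finset.sum_le_sum fun j _ => h1 j
          _ = m * 2 ^ W * Real.exp (-(n * τ)) := by
              rw [Finset.sum_const, Finset.card_univ, Fintype.card_fin, nsmul_eq_mul]
              ring

end Pool.Agent.H31.RB
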